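import Pool.Agent.H1.KrD

namespace Pool.Agent.Results.MP_b1ee0a_an.Yes

open MeasureTheory H1.Kr

/-- Every measurable Hermitian `f ∈ R_A` is a difference of two measurable elements of `P_A`. -/
theorem result (A : ENNReal) (_hA : 0 < A) (f : ℝ → ℂ) (hf : AEMeasurable f (volume.restrict (I A)))
    (h : InR (I A) f) (hh : ∀ x ∈ I A, f (-x) = starRingEnd ℂ (f x)) :
    ∃ g k : ℝ → ℂ, InP (I A) g ∧ AEMeasurable g (volume.restrict (I A)) ∧ InP (I A) k ∧
      AEMeasurable k (volume.restrict (I A)) ∧ ∀ x ∈ I A, f x = g x - k x :=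
  jordan (I_open A) I_neg hf h hh

end Pool.Agent.Results.MP_b1ee0a_an.Yes
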